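import Pool.Agent.Q47.AL.Def
import Pool.Agent.TH216.MF.FarkasQ

/-!
# Relatively ample classes and circuits of noneffective classes on toric varieties
-/

set_option autoImplicit false

namespace Q47.AL

open Q47.TB MvPolynomial

variable {ι : Type*} [Fintype ι] {n : ℕ}

/-- Pairing with a relation. -/
theorem pair_eq {u : ι → Fin n → ℤ} {α β : ι → ℤ} (h : LinEquiv u α β) {o : ι → ℤ}
    (ho : ∀ k, ∑ i, o i * u i k = 0) : ∑ i, α i * o i = ∑ i, β i * o i := by
  obtain ⟨m, hm⟩ := h
  have h1 : ∀ i, α i * o i = β i * o i + ∑ k, m k * (o i * u i k) := fun i => by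
    rw [hm i, add_mul, Finset.sum_mul]
    congr 1
    exact Finset.sum_congr rfl fun k _ => by ring
  simp only [h1]
  rw [Finset.sum_add_distrib, Finset.sum_comm]
  simp [← Finset.mul_sum, ho]

/-- The zeros of the exponents of an ample class. -/
theorem zeros_mem {u : ι → Fin n → ℤ} {S : Set (Set ι)} (hS : IsSmoothFan u S) {d : ι → ℤ}
    (hd : IsFibreAmple u S d) {α : ι → ℕ} (hα : LinEquiv u (fun i => (α i : ℤ)) d) :
    {i | α i = 0} ∈ S := by
  classical
  obtain ⟨a, ⟨ha, hw⟩, -⟩ := hS.rep fun k => ∑ i, (if α i = 0 then (1 : ℤ) else 0) * u i k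
  obtain ⟨N, β, hN, hβ, hb⟩ := hd _ ha
  set o : ι → ℤ := fun i => (if α i = 0 then (1 : ℤ) else 0) - a i with ho
  have hrel : ∀ k, ∑ i, o i * u i k = 0 := fun k => by
    simp only [ho, sub_mul, Finset.sum_sub_distrib]
    rw [hw k]
    ring
  have h1 := pair_eq hα hrel
  have h2 := pair_eq hb hrel
  have h3 : ∑ i, (N : ℤ) * d i * o i = N * ∑ i, (α i : ℤ) * o i := by
    rw [h1, Finset.mul_sum]
    exact Finset.sum_congr rfl fun i _ => by ring
  rw [h3] at h2
  have h4 : ∑ i, (α i : ℤ) * o i ≤ 0 := Finset.sum_nonpos fun i _ => by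
    simp only [ho]
    split_ifs with h
    · simp [h]
    · rw [zero_sub, mul_neg]
      exact neg_nonpos.2 (mul_nonneg (Int.natCast_nonneg _) (Int.natCast_nonneg _))
  have h5 : ∀ i, 0 ≤ (β i : ℤ) * o i := fun i => by
    simp only [ho]
    by_cases hi : a i = 0
    · rw [hi]
      split_ifs
      · simp
      · simp
    · have : β i = 0 := (hβ i).2 hi
      simp [this]
  have h6 : ∑ i, (β i : ℤ) * o i = 0 := by
    refine le_antisymm ?_ (Finset.sum_nonneg fun i _ => h5 i)
    rw [h2]
    exact mul_nonpos_of_nonneg_of_nonpos (Int.natCast_nonneg _) h4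
  have h7 := (Finset.sum_eq_zero_iff_of_nonneg fun i _ => h5 i).1 h6
  refine hS.face _ ha _ fun i hi => ?_
  by_contra hc
  have h8 := h7 i (Finset.mem_univ i)
  have h9 : a i = 0 := by
    by_contra h
    exact hc h
  have hi' : α i = 0 := hi
  simp only [ho, hi', if_true, h9, Nat.cast_zero, sub_zero, mul_one] at h8
  exact hc ((hβ i).1 (by exact_mod_cast h8))

/-- The coordinates of a point off a relatively ample divisor. -/
theorem mem_of_eval_ne {u : ι → Fin n → ℤ} {S : Set (Set ι)} (hS : IsSmoothFan u S) {d : ι → ℤ}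
    (hd : IsFibreAmple u S d) {f : MvPolynomial ι ℂ}
    (hf : ∀ α ∈ f.support, LinEquiv u (fun i => (α i : ℤ)) d) {x : ι → ℂ} (hx : eval x f ≠ 0) :
    {i | x i = 0} ∈ S := by
  rw [eval_eq'] at hx
  obtain ⟨α, hα, h⟩ := Finset.exists_ne_zero_of_sum_ne_zero hx
  refine hS.face _ (zeros_mem hS hd (hf α hα)) _ fun i hi => ?_
  by_contra hc
  have h0 : ∏ i, x i ^ α i = 0 := Finset.prod_eq_zero (Finset.mem_univ i) (by
    rw [show x i = 0 from hi]
    exact zero_pow hc)
  rw [h0, mul_zero] at h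
  exact h rfl

/-- Common denominators. -/
theorem clear_int {B : Type*} [Fintype B] (l : B → ℚ) :
    ∃ (M : ℕ) (m : B → ℤ), 1 ≤ M ∧ ∀ b, (m b : ℚ) = M * l b := by
  classical
  refine ⟨∏ b, (l b).den, fun b => (∏ c ∈ Finset.univ.erase b, (l c).den : ℕ) * (l b).num,
    Finset.prod_pos fun b _ => (l b).den_pos, fun b => ?_⟩
  have h3 : ((l b).num : ℚ) = (l b).den * l b := by
    rw [mul_comm]
    exact (Rat.mul_den_eq_num (l b)).symm
  rw [Int.cast_mul, h3, ← Finset.mul_prod_erase Finset.univ (fun c => (l c).den)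
    (Finset.mem_univ b)]
  push_cast
  ring

/-- A class no multiple of which is effective is negative on an effective relation. -/
theorem exists_relation (u : ι → Fin n → ℤ) (δ : ι → ℤ)
    (h : ¬ ∃ (N : ℕ) (b : ι → ℕ), 1 ≤ N ∧
      LinEquiv u (fun i => (b i : ℤ)) fun i => (N : ℤ) * δ i) :
    ∃ e : ι → ℕ, (∀ k, ∑ i, (e i : ℤ) * u i k = 0) ∧ ∑ i, δ i * (e i : ℤ) < 0 := by
  classical
  let eq := Fintype.equivFin ι
  let U := ℚ × (Fin n → ℚ)
  let ℓ : Fin (Fintype.card ι) → (U →ₗ[ℚ] ℚ) := fun j =>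
    -((δ (eq.symm j) : ℚ) • LinearMap.fst ℚ ℚ (Fin n → ℚ) +
      ∑ k, (u (eq.symm j) k : ℚ) • (LinearMap.proj k).comp (LinearMap.snd ℚ ℚ (Fin n → ℚ)))
  have hℓ : ∀ j (p : U), ℓ j p
      = -((δ (eq.symm j) : ℚ) * p.1 + ∑ k, (u (eq.symm j) k : ℚ) * p.2 k) := fun j p => by
    simp only [ℓ, LinearMap.neg_apply, LinearMap.add_apply, LinearMap.smul_apply,
      LinearMap.sum_apply, LinearMap.comp_apply, LinearMap.proj_apply, smul_eq_mul]
    rfl
  obtain ⟨w, hw0, hw⟩ := Pool.Agent.TH216.MF.farkas_lin (Fintype.card ι) ℓ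
    (LinearMap.fst ℚ ℚ (Fin n → ℚ)) (fun p hp => by
      by_contra hc
      rw [LinearMap.fst_apply] at hc
      push Not at hc
      apply h
      obtain ⟨M, m, hM, hm⟩ := clear_int (fun o : Option (Fin n) => o.elim p.1 p.2)
      have hm0 : (m none : ℚ) = M * p.1 := hm none
      have hpos : 0 < m none := by
        have : (0 : ℚ) < m none := by
          rw [hm0]
          exact mul_pos (by exact_mod_cast hM) hc
        exact_mod_cast this
      have hb : ∀ i, 0 ≤ m none * δ i + ∑ k, m (some k) * u i k := fun i => by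
        have h1 := hp (eq i)
        rw [hℓ] at h1
        simp only [Equiv.symm_apply_apply] at h1
        have h2 : (0 : ℚ) ≤ ((m none * δ i + ∑ k, m (some k) * u i k : ℤ) : ℚ) := by
          push_cast
          rw [hm0]
          have h3 : ∀ k, (m (some k) : ℚ) = M * p.2 k := fun k => hm (some k)
          simp only [h3]
          have h4 : (M : ℚ) * p.1 * δ i + ∑ k, (M : ℚ) * p.2 k * u i k
              = M * (δ i * p.1 + ∑ k, (u i k : ℚ) * p.2 k) := by
            rw [mul_add, Finset.mul_sum]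
            congr 1
            · ring
            · exact Finset.sum_congr rfl fun k _ => by ring
          rw [h4]
          exact mul_nonneg (Nat.cast_nonneg M) (by linarith)
        exact_mod_cast h2
      refine ⟨(m none).toNat, fun i => (m none * δ i + ∑ k, m (some k) * u i k).toNat, ?_,
        fun k => m (some k), fun i => ?_⟩
      · omega
      · simp only []
        rw [Int.toNat_of_nonneg (hb i), Int.toNat_of_nonneg hpos.le])
  obtain ⟨M, m, hM, hm⟩ := clear_int w
  have hm0 : ∀ j, 0 ≤ m j := fun j => by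
    have : (0 : ℚ) ≤ m j := by
      rw [hm]
      exact mul_nonneg (Nat.cast_nonneg M) (hw0 j)
    exact_mod_cast this
  have hsum : ∀ p : U, (M : ℚ) * p.1
      = -∑ i, (m (eq i) : ℚ) * ((δ i : ℚ) * p.1 + ∑ k, (u i k : ℚ) * p.2 k) := fun p => by
    have h1 := hw p
    rw [LinearMap.fst_apply] at h1
    have h2 : ∑ j, w j * ℓ j p = -∑ i, w (eq i) * ((δ i : ℚ) * p.1 + ∑ k, (u i k : ℚ) * p.2 k) := by
      rw [← Finset.sum_neg_distrib, ← Equiv.sum_comp eq]
      refine Finset.sum_congr rfl fun i _ => ?_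
      rw [hℓ]
      simp only [Equiv.symm_apply_apply]
      ring
    rw [h2] at h1
    refine (congrArg (fun z => (M : ℚ) * z) h1).trans ?_
    rw [mul_neg, Finset.mul_sum]
    congr 1
    refine Finset.sum_congr rfl fun i _ => ?_
    rw [hm]
    ring
  refine ⟨fun i => (m (eq i)).toNat, fun k => ?_, ?_⟩
  · have h1 := hsum ((0 : ℚ), Pi.single k 1)
    simp only [mul_zero, zero_add, Pi.single_apply, mul_ite, mul_one,
      Finset.sum_ite_eq', Finset.mem_univ, if_true] at h1
    have h2 : ∑ i, (m (eq i) : ℚ) * u i k = 0 := by linarith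
    have h3 : ∑ i, m (eq i) * u i k = 0 := by exact_mod_cast h2
    rw [← h3]
    exact Finset.sum_congr rfl fun i _ => by rw [Int.toNat_of_nonneg (hm0 _)]
  · have h1 := hsum ((1 : ℚ), 0)
    simp only [mul_one, Pi.zero_apply, mul_zero, Finset.sum_const_zero, add_zero] at h1
    have h2 : ∑ i, (m (eq i) : ℚ) * δ i < 0 := by
      have : (0 : ℚ) < M := by exact_mod_cast hM
      linarith
    have h3 : ∑ i, m (eq i) * δ i < 0 := by exact_mod_cast h2
    refine lt_of_eq_of_lt (Finset.sum_congr rfl fun i _ => ?_) h3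
    rw [Int.toNat_of_nonneg (hm0 _), mul_comm]

end Q47.AL
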