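import Pool.Agent.Q47.AL.Amp
import Pool.Agent.H952R2.Sextic.CommonZero

/-!
# Polynomial curves along which given polynomials are constant
-/

set_option autoImplicit false

namespace Q47.AL

open Q47.TB MvPolynomial

variable {ι : Type*} [Fintype ι] {n : ℕ}

/-- The degree in `t` of `f(q(t))`. -/
theorem natDegree_le {R : Type*} [CommRing R] (f : MvPolynomial ι ℂ) (φ : ℂ →+* R)
    (Q : ι → Polynomial R)
    {e : ι → ℕ} (hQ : ∀ i, (Q i).natDegree ≤ e i) {B : ℕ}
    (hB : ∀ α ∈ f.support, ∑ i, α i * e i ≤ B) :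
    (eval₂ (Polynomial.C.comp φ) Q f).natDegree ≤ B := by
  rw [eval₂_eq']
  refine Polynomial.natDegree_sum_le_of_forall_le _ _ fun α hα => ?_
  refine (Polynomial.natDegree_mul_le).trans ?_
  rw [RingHom.comp_apply, Polynomial.natDegree_C, zero_add]
  refine (Polynomial.natDegree_prod_le _ _).trans (le_trans (Finset.sum_le_sum fun i _ => ?_)
    (hB α hα))
  exact (Polynomial.natDegree_pow_le).trans (Nat.mul_le_mul_left _ (hQ i))

/-- Polynomial curves along which given polynomials are constant. -/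
theorem exists_curve {J : Type*} [Fintype J] (f : J → MvPolynomial ι ℂ) (e : ι → ℕ) (B : J → ℕ)
    (hB : ∀ j, ∀ α ∈ (f j).support, ∑ i, α i * e i ≤ B j) (hlt : ∑ j, B j < ∑ i, e i)
    (x : ι → ℂ) :
    ∃ q : ι → Polynomial ℂ, (∀ i, (q i).eval 0 = x i) ∧ (∃ i, q i ≠ Polynomial.C (x i)) ∧
      ∀ j t, eval (fun i => (q i).eval t) (f j) = eval x (f j) := by
  classical
  let κ := Σ i, Fin (e i)
  let R := MvPolynomial κ ℂ
  let φ : ℂ →+* R := MvPolynomial.C
  let Q : ι → Polynomial R := fun i => Polynomial.C (φ (x i)) +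
    ∑ l : Fin (e i), Polynomial.C (X (⟨i, l⟩ : κ)) * Polynomial.X ^ ((l : ℕ) + 1)
  have hQ : ∀ i, (Q i).natDegree ≤ e i := fun i => by
    refine (Polynomial.natDegree_add_le _ _).trans (max_le ?_ ?_)
    · rw [Polynomial.natDegree_C]; exact Nat.zero_le _
    · refine Polynomial.natDegree_sum_le_of_forall_le _ _ fun l _ => ?_
      exact (Polynomial.natDegree_C_mul_X_pow_le _ _).trans l.2
  let P : J → Polynomial R := fun j => eval₂ (Polynomial.C.comp φ) Q (f j)
  have hP : ∀ j, (P j).natDegree ≤ B j := fun j => natDegree_le (f j) φ Q hQ (hB j)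
  let g : (Σ j, Fin (B j)) → MvPolynomial κ ℂ := fun p => (P p.1).coeff ((p.2 : ℕ) + 1)
  -- evaluation of the unknown coefficients
  let qq : (κ → ℂ) → ι → Polynomial ℂ := fun c i => (Q i).map (eval c : R →+* ℂ)
  have hmap : ∀ (c : κ → ℂ) (j : J),
      (P j).map (eval c : R →+* ℂ) = eval₂ Polynomial.C (qq c) (f j) := fun c j => by
    have h1 : (P j).map (eval c : R →+* ℂ)
        = (Polynomial.mapRingHom (eval c : R →+* ℂ)) (eval₂ (Polynomial.C.comp φ) Q (f j)) := rfl
    rw [h1, hom_eval₂]
    congr 1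
    ext z
    simp [φ]
  have hev : ∀ (c : κ → ℂ) (j : J) (t : ℂ),
      ((P j).map (eval c : R →+* ℂ)).eval t = eval (fun i => (qq c i).eval t) (f j) :=
    fun c j t => by
      rw [hmap]
      have h1 : (eval₂ Polynomial.C (qq c) (f j)).eval t
          = (Polynomial.evalRingHom t) (eval₂ Polynomial.C (qq c) (f j)) := rfl
      rw [h1, hom_eval₂, MvPolynomial.eval]
      congr 1
      ext z
      simp
  have heC : ∀ (c : κ → ℂ) (z : ℂ), (eval c : R →+* ℂ) (MvPolynomial.C z) = z := fun c z =>
    MvPolynomial.eval_C z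
  have hq0 : ∀ c i, (qq c i).eval 0 = x i := fun c i => by
    simp only [qq, Q, φ, Polynomial.map_add, Polynomial.map_C, Polynomial.map_sum,
      Polynomial.map_mul, Polynomial.map_pow, Polynomial.map_X, Polynomial.eval_add,
      Polynomial.eval_C, Polynomial.eval_finsetSum, Polynomial.eval_mul, Polynomial.eval_pow,
      Polynomial.eval_X, heC]
    simp
  have hzero : ∀ i, qq 0 i = Polynomial.C (x i) := fun i => by
    simp only [qq, Q, φ, Polynomial.map_add, Polynomial.map_C, Polynomial.map_sum,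
      Polynomial.map_mul, Polynomial.map_pow, Polynomial.map_X, heC]
    simp
  have hconst : ∀ p, eval 0 (g p) = 0 := fun p => by
    have h1 : eval 0 (g p) = ((P p.1).map (eval 0 : R →+* ℂ)).coeff ((p.2 : ℕ) + 1) := by
      rw [Polynomial.coeff_map]
    have h2 : (eval₂ Polynomial.C (fun i => Polynomial.C (x i)) (f p.1) : Polynomial ℂ)
        = Polynomial.C (eval x (f p.1)) := by
      have h3 : (Polynomial.C : ℂ →+* Polynomial ℂ) (eval₂ (RingHom.id ℂ) x (f p.1))
          = eval₂ (Polynomial.C.comp (RingHom.id ℂ)) (Polynomial.C ∘ x) (f p.1) :=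
        hom_eval₂ _ _ _ _
      rw [RingHom.comp_id] at h3
      exact h3.symm
    rw [h1, hmap, show qq 0 = fun i => Polynomial.C (x i) from funext hzero, h2,
      Polynomial.coeff_C, if_neg (Nat.succ_ne_zero _)]
  have hcard : Fintype.card (Σ j, Fin (B j)) < Fintype.card κ := by
    simpa [κ, Fintype.card_sigma] using hlt
  obtain ⟨c, hc0, hc⟩ := Pool.Agent.H952R2.Sextic.exists_common_zero hcard g hconst
  refine ⟨qq c, hq0 c, ?_, fun j t => ?_⟩
  · by_contra hcon
    push Not at hcon
    apply hc0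
    ext ⟨i, l⟩
    have h1 : (qq c i).coeff ((l : ℕ) + 1) = 0 := by
      rw [hcon i, Polynomial.coeff_C, if_neg (Nat.succ_ne_zero _)]
    have h2 : (qq c i).coeff ((l : ℕ) + 1) = c ⟨i, l⟩ := by
      simp only [qq, Q, Polynomial.coeff_map, Polynomial.coeff_add, Polynomial.finsetSum_coeff,
        Polynomial.coeff_C_mul, Polynomial.coeff_X_pow, Polynomial.coeff_C,
        if_neg (Nat.succ_ne_zero _), zero_add]
      rw [map_sum, Finset.sum_eq_single l]
      · simp
      · intro b _ hb
        have : ¬ ((l : ℕ) = (b : ℕ)) := fun h => hb (Fin.ext (by omega))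
        simp [this]
      · simp
    rw [← h2, h1]
    rfl
  · have h1 : (P j).map (eval c : R →+* ℂ)
        = Polynomial.C (((P j).map (eval c : R →+* ℂ)).coeff 0) := by
      refine Polynomial.ext fun k => ?_
      rcases Nat.eq_zero_or_pos k with hk | hk
      · rw [hk, Polynomial.coeff_C, if_pos rfl]
      · rw [Polynomial.coeff_C, if_neg hk.ne', Polynomial.coeff_map]
        rcases Nat.lt_or_ge (B j) k with h | h
        · rw [Polynomial.coeff_eq_zero_of_natDegree_lt ((hP j).trans_lt h), map_zero]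
        · have := hc ⟨j, ⟨k - 1, by omega⟩⟩
          simp only [g] at this
          rwa [Nat.sub_add_cancel hk] at this
    have h2 : ∀ s, ((P j).map (eval c : R →+* ℂ)).eval s
        = ((P j).map (eval c : R →+* ℂ)).coeff 0 := fun s => by
      rw [h1, Polynomial.eval_C, Polynomial.coeff_C, if_pos rfl]
    have h3 := hev c j t
    have h4 := hev c j 0
    rw [h2] at h3 h4
    rw [← h3, h4]
    congr 1
    simp only [hq0]

end Q47.AL
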