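import Pool.Agent.Q47.TB.Defs

/-!
# Relatively ample classes on toric bundles: definition
-/

set_option autoImplicit false

namespace Q47.AL

open Q47.TB

variable {ι : Type*} [Fintype ι] {n : ℕ}

/-- The line bundle `O(d)` on the toric variety is ample: for each cone `σ` some multiple `N d`,
`N ≥ 1`, contains an effective divisor `∑ β_i D_i` with `β_i = 0` exactly for `i ∈ σ`. -/
def IsFibreAmple (u : ι → Fin n → ℤ) (S : Set (Set ι)) (d : ι → ℤ) : Prop :=
  ∀ σ ∈ S, ∃ (N : ℕ) (β : ι → ℕ), 1 ≤ N ∧ (∀ i, β i = 0 ↔ i ∈ σ) ∧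
    LinEquiv u (fun i => (β i : ℤ)) fun i => (N : ℤ) * d i

end Q47.AL
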