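import Pool.Agent.Q47.TB.Psef3
import Pool.Agent.Q47.AL.Curve

/-!
# Pluricanonical forms at the general points, and affine lines
-/

set_option autoImplicit false

namespace Q47.AL

open Pool.Agent.W594.SYZ2 Pool.Agent.W594.SYZ2.TQ Pool.Agent.TH735.AQ MvPolynomial Q47.EB Q47.KN
  Q47.TB
open Q47.MM (nef_of_section Inv inv_of_chern roots exists_tests Refls nef_of_roots cone_decomp)

variable {V : Type*} [NormedAddCommGroup V] [NormedSpace ℂ V] [FiniteDimensional ℂ V]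
  {Γ : Subgroup (V ≃ᵃ[ℂ] V)} {ι : Type*} [Fintype ι] {n : ℕ}

omit [FiniteDimensional ℂ V] in
/-- Sections from a generated power on the base, at the general points. -/
theorem exists_monomial_at {u : ι → Fin n → ℤ} {c : ι → LineBundle Γ} {L : LineBundle Γ}
    {d : ι → ℤ} {K₀ K E : ℕ} (h1 : 1 ≤ K₀) (h2 : 1 ≤ K) (h3 : 1 ≤ E) {b : ι → ℕ}
    (hb : LinEquiv u (fun i => (b i : ℤ)) (fun i => K₀ * d i))
    (hg : GG ((tw (L.pow K₀) c K b).pow E)) :
    ∃ N : ℕ, 1 ≤ N ∧ ∀ (v : V) (x : ι → ℂ), (∀ i, x i ≠ 0) →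
      ∃ G, IsSection u c (fun i => (N : ℤ) * d i) (fun γ v => L.e γ v ^ N) G ∧
        eval x (G v) ≠ 0 := by
  refine ⟨K₀ * (K * E), Nat.mul_pos h1 (Nat.mul_pos h2 h3), fun v x hx => ?_⟩
  obtain ⟨s, hs, hs0⟩ := hg v
  have h4 := isSection_monomial hb hs
  refine ⟨_, (?_ : IsSection u c _ _
    fun v => monomial (Finsupp.equivFunOnFinite.symm fun i => K * E * b i) (s v)), ?_⟩
  rotate_left
  · rw [eval_monomial]
    refine mul_ne_zero hs0 ?_
    rw [Finsupp.prod_fintype _ _ fun i => pow_zero _]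
    exact Finset.prod_ne_zero_iff.2 fun i _ => pow_ne_zero _ (hx i)
  · have e1 : (fun i => ((K₀ * (K * E) : ℕ) : ℤ) * d i)
        = fun i => ((K * E : ℕ) : ℤ) * (K₀ * d i) := by
      ext i
      push_cast
      ring
    have e2 : (fun (γ : Γ) v => L.e γ v ^ (K₀ * (K * E)))
        = fun γ v => (L.pow K₀).e γ v ^ (K * E) := by
      ext γ v
      exact pow_mul _ _ _
    rw [e1, e2]
    exact h4

/-- Nonvanishing at the general points. -/
theorem nonvanishing_at (hΓ : IsTorusQuotient Γ) {ρ : V → ℂ} (hρ : IsRamification Γ ρ)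
    {u : ι → Fin n → ℤ} {S : Set (Set ι)} (hS : IsSmoothFan u S)
    {c : ι → LineBundle Γ} {Hc : ι → V → V → ℂ} (hc : ∀ i, IsChernForm (c i) (Hc i))
    {m : ℕ} {d : ι → ℤ} {F : V → MvPolynomial ι ℂ} {L : LineBundle Γ}
    {H : V → V → ℂ} (hL : IsChernForm L H) (hF : Q47.TB.IsLogPluricanonical u c m ρ d F L)
    (T : Finset (ι →₀ ℕ)) (hT : ∀ α ∈ T, ∃ v, coeff α (F v) ≠ 0)
    (hw : ∀ a : ι → ℕ, {i | a i ≠ 0} ∈ S → ∃ α ∈ T, ∑ i, a i * α i ≤ m * ∑ i, a i)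
    {β : ι → ℝ} {q : Fin n → ℝ} (hβ0 : ∀ i, 0 ≤ β i)
    (hβ : ∀ i, β i = (d i - m : ℤ) + ∑ k, q k * u i k)
    (hn : IsNefForm fun v w => H v w - ∑ i, (β i : ℂ) * Hc i v w) :
    ∃ N : ℕ, 1 ≤ N ∧ ∀ (v : V) (x : ι → ℂ), (∀ i, x i ≠ 0) →
      ∃ G, IsSection u c (fun i => (N : ℤ) * (d i - m)) (fun γ v => L.e γ v ^ N) G ∧
        eval x (G v) ≠ 0 := by
  obtain ⟨K₀, b, hK₀, hb, hroots⟩ := exists_int hΓ hc hL hβ0 hβ hn
  obtain ⟨K, hK, P, hP, hP0, hPe⟩ := exists_base_pair_mul hS T (fun α v => coeff α (F v)) hF.holo hT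
    (fun α hα => by
      obtain ⟨v, hv⟩ := hT α hα
      exact hF.deg v α (mem_support_iff.2 hv))
    (fun α _ γ v => by
      refine coeff_of_eval (fun x => ?_) α
      rw [hF.eq γ v x]
      ring) hw hK₀ (β := b) (by simpa using hb)
  have hch := chern_tw (chern_pow hL K₀) hc K b
  have hre : ∀ v, ((K : ℂ) * ((K₀ : ℂ) * H v v - ∑ i, (b i : ℂ) * Hc i v v)).re
      = (K : ℝ) * ((K₀ : ℂ) * H v v - ∑ i, (b i : ℂ) * Hc i v v).re := by
    intro v
    have : ((K : ℕ) : ℂ) = ((K : ℝ) : ℂ) := by push_cast; rfl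
    rw [this, Complex.re_ofReal_mul]
  have hnef : IsNefForm fun v w => (K : ℂ) * ((K₀ : ℂ) * H v w - ∑ i, (b i : ℂ) * Hc i v w) := by
    refine nef_of_roots hΓ (inv_of_chern hch) (fun x hx => ?_) fun a ha => ?_
    · obtain ⟨hH, F', hF', hFe⟩ := hch
      exact pair_fixed hΓ hρ hP hP0 hPe hH ⟨hF', hFe⟩ hx
    · rw [hre]
      exact mul_nonneg (Nat.cast_nonneg K) (hroots a ha)
  obtain ⟨hH, F', hF', hFe⟩ := hch
  exact exists_monomial_at hK₀ hK (expo_pos (Module.finrank ℂ V)) hb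
    (gg_of_pair hΓ hH ⟨hF', hFe⟩ hρ hP hP0 hPe hnef)

/-- Nonvanishing at the general points, over bases without reflections. -/
theorem nonvanishing_no_mirror_at (hΓ : IsTorusQuotient Γ) {ρ : V → ℂ} (hρ : IsRamification Γ ρ)
    (hρ0 : ∀ v, ¬ OnMirror Γ v)
    {u : ι → Fin n → ℤ} {S : Set (Set ι)} (hS : IsSmoothFan u S)
    {c : ι → LineBundle Γ} {Hc : ι → V → V → ℂ} (hc : ∀ i, IsChernForm (c i) (Hc i))
    {m : ℕ} {d : ι → ℤ} {F : V → MvPolynomial ι ℂ} {L : LineBundle Γ}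
    {H : V → V → ℂ} (hL : IsChernForm L H) (hF : Q47.TB.IsLogPluricanonical u c m ρ d F L)
    (T : Finset (ι →₀ ℕ)) (hT : ∀ α ∈ T, ∃ v, coeff α (F v) ≠ 0)
    (hw : ∀ a : ι → ℕ, {i | a i ≠ 0} ∈ S → ∃ α ∈ T, ∑ i, a i * α i ≤ m * ∑ i, a i)
    {K₀ : ℕ} (hK₀ : 1 ≤ K₀) {b : ι → ℕ}
    (hb : LinEquiv u (fun i => (b i : ℤ)) (fun i => K₀ * (d i - m))) :
    ∃ N : ℕ, 1 ≤ N ∧ ∀ (v : V) (x : ι → ℂ), (∀ i, x i ≠ 0) →
      ∃ G, IsSection u c (fun i => (N : ℤ) * (d i - m)) (fun γ v => L.e γ v ^ N) G ∧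
        eval x (G v) ≠ 0 := by
  obtain ⟨K, hK, P, hP, hP0, hPe⟩ := exists_base_pair_mul hS T (fun α v => coeff α (F v)) hF.holo hT
    (fun α hα => by
      obtain ⟨v, hv⟩ := hT α hα
      exact hF.deg v α (mem_support_iff.2 hv))
    (fun α _ γ v => by
      refine coeff_of_eval (fun x => ?_) α
      rw [hF.eq γ v x]
      ring) hw hK₀ (β := b) hb
  have hρ1 : ∀ v, ρ v ≠ 0 := fun v h => hρ0 v ((hρ.zero_iff v).1 h)
  have hn := nef_of_pair hΓ hρ.holo hρ1 (chern_pow hL K₀) hc hK hP hP0 hPe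
  exact exists_monomial_at hK₀ hK (expo_pos (Module.finrank ℂ V)) hb
    (gg_tw hΓ hρ (chern_pow hL K₀) hc hP hP0 hPe hn)

/-- A nonconstant morphism from the affine line to the part of the fibre `Y_v` of the toric bundle
on which `f_1 = … = f_k = 0` and `D ≠ 0`, with `0 ↦ x`, given in the Cox coordinates by
polynomials `q_i(t)`: nonconstant means that the `q(t)` are not all in one orbit of the group of
all `g` with `∏ g_i ^ (u_i)_k = 1`. -/
def HasLine (u : ι → Fin n → ℤ) (S : Set (Set ι)) {k : ℕ} (f : Fin k → MvPolynomial ι ℂ)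
    (D : MvPolynomial ι ℂ) (x : ι → ℂ) : Prop :=
  ∃ q : ι → Polynomial ℂ, (∀ i, (q i).eval 0 = x i) ∧
    (∀ t, {i | (q i).eval t = 0} ∈ S) ∧
    (∀ t j, eval (fun i => (q i).eval t) (f j) = 0) ∧
    (∀ t, eval (fun i => (q i).eval t) D ≠ 0) ∧
    ¬ ∀ t, ∃ g : ι → ℂ, (∀ i, g i ≠ 0) ∧ (∀ l, ∏ i, g i ^ u i l = 1) ∧
      ∀ i, (q i).eval t = g i * x i

omit [Fintype ι] in
/-- Nonconstant curves. -/
theorem const_of_orbit {q : ι → Polynomial ℂ} {x : ι → ℂ} (hq : ∀ i, (q i).eval 0 = x i)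
    (h : ∀ t, ∃ g : ι → ℂ, (∀ i, g i ≠ 0) ∧ ∀ i, (q i).eval t = g i * x i) (i : ι) :
    q i = Polynomial.C (x i) := by
  by_cases hx : x i = 0
  · rw [hx, map_zero]
    refine Polynomial.funext fun t => ?_
    obtain ⟨g, -, hg⟩ := h t
    rw [hg i, hx, mul_zero, Polynomial.eval_zero]
  · have h1 : ∀ t, (q i).eval t ≠ 0 := fun t => by
      obtain ⟨g, hg0, hg⟩ := h t
      rw [hg i]
      exact mul_ne_zero (hg0 i) hx
    have h2 : (q i).degree = 0 := by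
      by_contra hc
      obtain ⟨z, hz⟩ := IsAlgClosed.exists_root (q i) hc
      exact h1 z hz
    have h3 := Polynomial.eq_C_of_degree_eq_zero h2
    rw [h3, ← hq i, h3]
    simp

omit [FiniteDimensional ℂ V] in
/-- Affine lines through all points, if no multiple of the log canonical class is effective on the
fibres. -/
theorem exists_line {u : ι → Fin n → ℤ} {S : Set (Set ι)} (hS : IsSmoothFan u S) {d : ι → ℤ}
    (hd : IsFibreAmple u S d) {k : ℕ} {h : Fin k → ι → ℤ} {f : Fin k → MvPolynomial ι ℂ}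
    {D : MvPolynomial ι ℂ} (hD : ∀ α ∈ D.support, LinEquiv u (fun i => (α i : ℤ)) d)
    (hf : ∀ j, ∀ α ∈ (f j).support, LinEquiv u (fun i => (α i : ℤ)) (h j))
    (hf₀ : ∀ j, ∃ α : ι →₀ ℕ, LinEquiv u (fun i => (α i : ℤ)) (h j))
    (hne : ¬ ∃ (N : ℕ) (b : ι → ℕ), 1 ≤ N ∧ LinEquiv u (fun i => (b i : ℤ))
      fun i => (N : ℤ) * (d i + ∑ j, h j i - 1))
    {x : ι → ℂ} (hx : eval x D ≠ 0) (hfx : ∀ j, eval x (f j) = 0) : HasLine u S f D x := by
  classical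
  obtain ⟨e, he, hneg⟩ := exists_relation u (fun i => d i + ∑ j, h j i - 1) hne
  -- degrees
  have hdeg : ∀ {g : ι → ℤ} {α : ι →₀ ℕ}, LinEquiv u (fun i => (α i : ℤ)) g →
      ((∑ i, α i * e i : ℕ) : ℤ) = ∑ i, g i * (e i : ℤ) := fun {g α} hα => by
    rw [← pair_eq hα he]
    push_cast
    rfl
  have hdpos : ∃ α : ι →₀ ℕ, LinEquiv u (fun i => (α i : ℤ)) d := by
    by_contra hc
    apply hx
    have : D = 0 := by
      rw [← support_eq_empty, Finset.eq_empty_iff_forall_notMem]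
      exact fun α hα => hc ⟨α, hD α hα⟩
    rw [this, map_zero]
  choose α₀ hα₀ using hf₀
  obtain ⟨α₁, hα₁⟩ := hdpos
  let B : Option (Fin k) → ℕ := fun o => o.elim (∑ i, α₁ i * e i) fun j => ∑ i, α₀ j i * e i
  let F : Option (Fin k) → MvPolynomial ι ℂ := fun o => o.elim D f
  have hB : ∀ j, ∀ α ∈ (F j).support, ∑ i, α i * e i ≤ B j := by
    rintro (_ | j) α hα
    · have h1 := hdeg (hD α hα)
      rw [← hdeg hα₁] at h1
      exact le_of_eq (by exact_mod_cast h1)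
    · have h1 := hdeg (hf j α hα)
      rw [← hdeg (hα₀ j)] at h1
      exact le_of_eq (by exact_mod_cast h1)
  have hlt : ∑ j, B j < ∑ i, e i := by
    rw [Fintype.sum_option]
    have h1 : ((B none + ∑ j, B (some j) : ℕ) : ℤ) < ((∑ i, e i : ℕ) : ℤ) := by
      rw [Nat.cast_add, Nat.cast_sum]
      have h2 : ((B none : ℕ) : ℤ) = ∑ i, d i * (e i : ℤ) := hdeg hα₁
      have h3 : ∀ j, ((B (some j) : ℕ) : ℤ) = ∑ i, h j i * (e i : ℤ) := fun j => hdeg (hα₀ j)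
      rw [h2, Finset.sum_congr rfl fun j _ => h3 j, Finset.sum_comm, Nat.cast_sum]
      have h4 : ∑ i, (d i + ∑ j, h j i - 1) * (e i : ℤ)
          = ∑ i, d i * (e i : ℤ) + ∑ i, ∑ j, h j i * (e i : ℤ) - ∑ i, (e i : ℤ) := by
        rw [← Finset.sum_add_distrib, ← Finset.sum_sub_distrib]
        refine Finset.sum_congr rfl fun i _ => ?_
        rw [← Finset.sum_mul]
        ring
      linarith
    exact_mod_cast h1
  obtain ⟨q, hq0, ⟨i₀, hi₀⟩, hq⟩ := exists_curve F e B hB hlt x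
  have hDq : ∀ t, eval (fun i => (q i).eval t) D ≠ 0 := fun t =>
    ne_of_eq_of_ne (hq none t : _ = eval x D) hx
  refine ⟨q, hq0, fun t => mem_of_eval_ne hS hd hD (hDq t), fun t j => ?_, hDq, fun hcon => ?_⟩
  · exact (hq (some j) t).trans (hfx j)
  · refine hi₀ (const_of_orbit hq0 (fun t => ?_) i₀)
    obtain ⟨g, hg, -, hg'⟩ := hcon t
    exact ⟨g, hg, hg'⟩

end Q47.AL
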